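import Mathlib

/-!
# Highly transitive subsets of the symmetric group

For `Y ⊆ S_n` and `k ≥ 1`, `Y` is `k`-transitive if there is a positive integer `r` such that for
any two `k`-tuples `α`, `β` of pairwise distinct points exactly `r` elements `y ∈ Y` satisfy
`y (α i) = β i` for all `i`.

We show that for every `n ≥ 4` (indeed for all `k, d ≥ 1` with `k + d + 2 ≤ n`) there are at least
`2 ^ (n (n-1) ⋯ (n-d+1) - 1) - 1` subsets `Y` containing the identity and different from `A_n` and
`S_n`, all of which are `j`-transitive for every `j ≤ k`.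

The construction: fix `d` points and any `{1,-1}`-valued function `G` of the images of these `d`
points. Then `Y = {y | sign y = G (images of the d points)}` is `k`-transitive: multiplying on the
right by a transposition of two points outside the `k + d` points involved exchanges `Y` and its
complement among the permutations with prescribed values on the `k`-tuple.
-/

open Equiv

namespace Pool.Agent.Results.MP_c60ead_co.HighlyTransitive

/-- `Y ⊆ S_n` is `k`-transitive: there is `r ≥ 1` such that for any two `k`-tuples `α`, `β` of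
pairwise distinct points (that is, injections `Fin k ↪ Fin n`), the number of `y ∈ Y` with
`y (α i) = β i` for all `i` is `r`. -/
def KTransitive {n : ℕ} (k : ℕ) (Y : Set (Perm (Fin n))) : Prop :=
  ∃ r : ℕ, 0 < r ∧ ∀ α β : Fin k ↪ Fin n, {y | y ∈ Y ∧ ∀ i, y (α i) = β i}.ncard = r

/-- The permutations `y` whose sign is the prescribed function `G` of the images of the `d`
points `ι 0, …, ι (d-1)`. -/
def twist {n d : ℕ} (ι : Fin d ↪ Fin n) (G : (Fin d ↪ Fin n) → ℤˣ) : Set (Perm (Fin n)) :=
  {y | Perm.sign y = G (ι.trans y.toEmbedding)}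

lemma exists_two_points {n k d : ℕ} (h : k + d + 2 ≤ n) (α : Fin k ↪ Fin n) (ι : Fin d ↪ Fin n) :
    ∃ p q : Fin n, p ≠ q ∧ (∀ i, α i ≠ p ∧ α i ≠ q) ∧ (∀ j, ι j ≠ p ∧ ι j ≠ q) := by
  classical
  set S : Finset (Fin n) := (Finset.univ.image α ∪ Finset.univ.image ι)ᶜ with hS
  have hcard : 1 < S.card := by
    have h1 : (Finset.univ.image α ∪ Finset.univ.image ι).card ≤ k + d := by
      refine (Finset.card_union_le _ _).trans ?_
      refine Nat.add_le_add (Finset.card_image_le.trans (by simp))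
        (Finset.card_image_le.trans (by simp))
    rw [hS, Finset.card_compl, Fintype.card_fin]
    omega
  obtain ⟨p, hp, q, hq, hpq⟩ := Finset.one_lt_card.mp hcard
  refine ⟨p, q, hpq, ?_, ?_⟩
  · intro i
    constructor
    · rintro rfl
      simp [hS] at hp
    · rintro rfl
      simp [hS] at hq
  · intro i
    constructor
    · rintro rfl
      simp [hS] at hp
    · rintro rfl
      simp [hS] at hq

/-- permutations sending the tuple `α` to the tuple `β` -/
def sends {n k : ℕ} (α β : Fin k ↪ Fin n) : Set (Perm (Fin n)) := {y | ∀ i, y (α i) = β i}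

lemma exists_sends {n k : ℕ} (α β : Fin k ↪ Fin n) : ∃ σ : Perm (Fin n), ∀ i, σ (α i) = β i := by
  have := Equiv.Perm.isMultiplyPretransitive (Fin n) k
  obtain ⟨σ, hσ⟩ := MulAction.exists_smul_eq (Perm (Fin n)) α β
  refine ⟨σ, fun i => ?_⟩
  have := congrArg (fun f : Fin k ↪ Fin n => f i) hσ
  simpa using this

lemma ncard_sends_eq {n k : ℕ} (α β α' β' : Fin k ↪ Fin n) :
    (sends α β).ncard = (sends α' β').ncard := by
  obtain ⟨σ, hσ⟩ := exists_sends β β'
  obtain ⟨τ, hτ⟩ := exists_sends α' α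
  refine Set.ncard_congr (fun y _ => σ * y * τ) ?_ ?_ ?_
  · intro y hy i
    simp only [Perm.mul_apply, hτ]
    rw [hy i, hσ]
  · intro a b _ _ hab
    simpa using hab
  · intro b hb
    refine ⟨σ⁻¹ * b * τ⁻¹, ?_, by group⟩
    intro i
    have h1 : τ⁻¹ (α i) = α' i := by rw [← hτ i]; simp
    simp only [Perm.mul_apply, h1]
    rw [hb i, ← hσ i]
    simp

/-- The key exchange argument. -/
lemma two_mul_ncard {n k d : ℕ} (h : k + d + 2 ≤ n) (ι : Fin d ↪ Fin n)
    (G : (Fin d ↪ Fin n) → ℤˣ) (α β : Fin k ↪ Fin n) :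
    2 * {y | y ∈ twist ι G ∧ ∀ i, y (α i) = β i}.ncard = (sends α β).ncard := by
  classical
  obtain ⟨p, q, hpq, hα, hι⟩ := exists_two_points h α ι
  have hsw : ∀ x : Fin n, x ≠ p → x ≠ q → swap p q x = x := fun x h1 h2 =>
    swap_apply_of_ne_of_ne h1 h2
  have htr : ∀ y : Perm (Fin n), ι.trans (y * swap p q).toEmbedding = ι.trans y.toEmbedding := by
    intro y
    ext j
    simp [hsw _ (hι j).1 (hι j).2]
  have hsg : ∀ y : Perm (Fin n), Perm.sign (y * swap p q) = - Perm.sign y := by
    intro y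
    rw [Perm.sign_mul, Perm.sign_swap hpq]
    simp
  set A : Set (Perm (Fin n)) := {y | y ∈ twist ι G ∧ ∀ i, y (α i) = β i} with hA
  set B : Set (Perm (Fin n)) := {y | y ∉ twist ι G ∧ ∀ i, y (α i) = β i} with hB
  have hAB : A.ncard = B.ncard := by
    refine Set.ncard_congr (fun y _ => y * swap p q) ?_ ?_ ?_
    · rintro y ⟨hy1, hy2⟩
      refine ⟨?_, ?_⟩
      · simp only [twist, Set.mem_ofPred_eq] at hy1 ⊢
        rw [htr, hsg, hy1]
        intro hc
        rcases Int.units_eq_one_or (G (ι.trans y.toEmbedding)) with h0 | h0 <;>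
          rw [h0] at hc <;> exact absurd hc (by decide)
      · intro i
        rw [Perm.mul_apply, hsw _ (hα i).1 (hα i).2]
        exact hy2 i
    · intro a b _ _ hab
      exact mul_right_cancel hab
    · rintro b ⟨hb1, hb2⟩
      refine ⟨b * swap p q, ⟨?_, ?_⟩, ?_⟩
      · simp only [twist, Set.mem_ofPred_eq] at hb1 ⊢
        rw [htr, hsg]
        rcases Int.units_eq_one_or (G (ι.trans b.toEmbedding)) with h0 | h0 <;>
          rcases Int.units_eq_one_or (Perm.sign b) with h1 | h1 <;>
          rw [h0, h1] at hb1 <;> rw [h0, h1] <;> first | rfl | (exact absurd rfl hb1)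
      · intro i
        rw [Perm.mul_apply, hsw _ (hα i).1 (hα i).2]
        exact hb2 i
      · rw [mul_assoc, swap_mul_self, mul_one]
  have hU : sends α β = A ∪ B := by
    ext y
    simp only [sends, hA, hB, Set.mem_ofPred_eq, Set.mem_union]
    tauto
  have hd : Disjoint A B := by
    rw [Set.disjoint_left]
    rintro y ⟨h1, _⟩ ⟨h2, _⟩
    exact h2 h1
  rw [hU, Set.ncard_union_eq hd, ← hAB]
  ring

lemma kTransitive_twist {n k d : ℕ} (h : k + d + 2 ≤ n) (ι : Fin d ↪ Fin n)
    (G : (Fin d ↪ Fin n) → ℤˣ) : KTransitive k (twist ι G) := by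
  have hk : k ≤ n := by omega
  set α₀ : Fin k ↪ Fin n := Fin.castLEEmb hk
  refine ⟨{y | y ∈ twist ι G ∧ ∀ i, y (α₀ i) = α₀ i}.ncard, ?_, ?_⟩
  · have h1 := two_mul_ncard h ι G α₀ α₀
    have h2 : 0 < (sends α₀ α₀).ncard := by
      rw [Set.ncard_pos]
      exact ⟨1, fun i => rfl⟩
    omega
  · intro α β
    have h1 := two_mul_ncard h ι G α₀ α₀
    have h2 := two_mul_ncard h ι G α β
    have h3 := ncard_sends_eq α β α₀ α₀
    omega

/-- Every prescribed image of the `d` points and every prescribed sign is realised. -/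
lemma exists_perm_sign {n d : ℕ} (h : d + 2 ≤ n) (ι e : Fin d ↪ Fin n) (s : ℤˣ) :
    ∃ y : Perm (Fin n), ι.trans y.toEmbedding = e ∧ Perm.sign y = s := by
  classical
  obtain ⟨σ, hσ⟩ := exists_sends ι e
  have hext : ι.trans σ.toEmbedding = e := by
    ext j
    simp [hσ j]
  by_cases hs : Perm.sign σ = s
  · exact ⟨σ, hext, hs⟩
  · obtain ⟨p, q, hpq, -, hι⟩ := exists_two_points (k := 0) (by omega) (Fin.castLEEmb (by omega)) ι
    refine ⟨σ * swap p q, ?_, ?_⟩
    · ext j
      rw [← hσ j]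
      simp [swap_apply_of_ne_of_ne (hι j).1 (hι j).2]
    · rw [Perm.sign_mul, Perm.sign_swap hpq]
      rcases Int.units_eq_one_or (Perm.sign σ) with h0 | h0 <;>
        rcases Int.units_eq_one_or s with h1 | h1 <;>
        rw [h0, h1] at hs <;> rw [h0, h1] <;> first | rfl | (exact absurd rfl hs)

lemma twist_injective {n d : ℕ} (h : d + 2 ≤ n) (ι : Fin d ↪ Fin n) :
    Function.Injective (twist ι : ((Fin d ↪ Fin n) → ℤˣ) → Set (Perm (Fin n))) := by
  intro G H hGH
  funext e
  obtain ⟨y, hy1, hy2⟩ := exists_perm_sign h ι e (G e)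
  have : y ∈ twist ι G := by
    simp only [twist, Set.mem_ofPred_eq, hy1, hy2]
  rw [hGH] at this
  simp only [twist, Set.mem_ofPred_eq, hy1, hy2] at this
  exact this

/-- The family of highly transitive subsets, indexed by the functions `G` with `G ι = 1` other than
the constant function `1`. -/
lemma mem_family {n k d : ℕ} (h : k + d + 2 ≤ n) (ι : Fin d ↪ Fin n)
    (G : (Fin d ↪ Fin n) → ℤˣ) (hG1 : G ι = 1) (hG : G ≠ fun _ => 1) :
    (1 : Perm (Fin n)) ∈ twist ι G ∧
      twist ι G ≠ (alternatingGroup (Fin n) : Set (Perm (Fin n))) ∧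
      twist ι G ≠ Set.univ ∧
      ∀ j, 1 ≤ j → j ≤ k → KTransitive j (twist ι G) := by
  have hd : d + 2 ≤ n := by omega
  have halt : twist ι (fun _ => (1 : ℤˣ)) = (alternatingGroup (Fin n) : Set (Perm (Fin n))) := by
    ext y
    simp [twist, Perm.mem_alternatingGroup]
  refine ⟨?_, ?_, ?_, ?_⟩
  · have : ι.trans (1 : Perm (Fin n)).toEmbedding = ι := by
      ext j
      simp
    simp only [twist, Set.mem_ofPred_eq, this, hG1, Perm.sign_one]
  · intro hc
    rw [← halt] at hc
    exact hG (twist_injective hd ι hc)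
  · intro hc
    obtain ⟨y, hy1, hy2⟩ := exists_perm_sign hd ι ι (-G ι)
    have : y ∈ twist ι G := by rw [hc]; trivial
    simp only [twist, Set.mem_ofPred_eq, hy1, hy2, hG1] at this
    exact absurd this (by decide)
  · intro j _ hj
    exact kTransitive_twist (by omega) ι G

/-- Q1 is false for every `n ≥ 4`, in a strong form: for all `n` and `k` with `1 ≤ k ≤ n - 3`
there are at least `2 ^ (n! / (k+2)! - 1) - 1 > 0` subsets `Y` of `S_n` that contain the identity,
are different from `A_n` and `S_n`, and are `j`-transitive for every `1 ≤ j ≤ k`. -/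
theorem result (n k : ℕ) (hk : 1 ≤ k) (hkn : k ≤ n - 3) :
    0 < 2 ^ (n.descFactorial (n - 2 - k) - 1) - 1 ∧
    2 ^ (n.descFactorial (n - 2 - k) - 1) - 1 ≤
      {Y : Set (Perm (Fin n)) | (1 : Perm (Fin n)) ∈ Y ∧
        Y ≠ (alternatingGroup (Fin n) : Set (Perm (Fin n))) ∧ Y ≠ Set.univ ∧
        ∀ j, 1 ≤ j → j ≤ k → KTransitive j Y}.ncard := by
  classical
  obtain ⟨d, hd⟩ : ∃ d, d = n - 2 - k := ⟨_, rfl⟩
  rw [← hd]
  have hsum : k + d + 2 ≤ n := by omega
  have hd1 : 1 ≤ d := by omega
  set ι : Fin d ↪ Fin n := Fin.castLEEmb (by omega) with hι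
  have hcardE : Fintype.card (Fin d ↪ Fin n) = n.descFactorial d := by
    rw [Fintype.card_embedding_eq]; simp
  have hbig : 2 ≤ n.descFactorial d := by
    have h1 := Nat.pow_sub_le_descFactorial n d
    have h2 : n + 1 - d ≤ (n + 1 - d) ^ d := Nat.le_self_pow (by omega) _
    omega
  refine ⟨?_, ?_⟩
  · have : 2 ^ 1 ≤ 2 ^ (n.descFactorial d - 1) := Nat.pow_le_pow_right (by norm_num) (by omega)
    omega
  set F : ({e : Fin d ↪ Fin n // e ≠ ι} → ℤˣ) → Set (Perm (Fin n)) :=
    fun g => twist ι (fun e => if h : e = ι then 1 else g ⟨e, h⟩) with hF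
  have hFinj : Function.Injective F := by
    intro g g' hgg
    have h1 := twist_injective (by omega : d + 2 ≤ n) ι hgg
    funext e
    have h2 := congrFun h1 e.1
    simpa [e.2] using h2
  have hcard : ({g : {e : Fin d ↪ Fin n // e ≠ ι} → ℤˣ | g ≠ fun _ => 1} : Set _).ncard =
      2 ^ (n.descFactorial d - 1) - 1 := by
    have h1 : ({g : {e : Fin d ↪ Fin n // e ≠ ι} → ℤˣ | g ≠ fun _ => 1} : Set _) =
        (({fun _ => 1} : Finset ({e : Fin d ↪ Fin n // e ≠ ι} → ℤˣ))ᶜ : Finset _) := by
      ext g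
      simp
    rw [h1, Set.ncard_coe_finset, Finset.card_compl, Finset.card_singleton, Fintype.card_fun,
      Fintype.card_subtype_compl, hcardE]
    simp
  rw [← hcard, ← Set.ncard_image_of_injective _ hFinj]
  refine Set.ncard_le_ncard ?_ (Set.toFinite _)
  rintro Y ⟨g, hg, rfl⟩
  refine mem_family hsum ι _ (by simp) ?_
  intro hc
  apply hg
  funext e
  have := congrFun hc e.1
  simpa [e.2] using this

/-- The literal negation of Q1, as a corollary of `result`. -/
theorem not_Q1 : ¬ ∃ n₀ : ℕ, ∀ n : ℕ, n₀ ≤ n → ∀ Y : Set (Perm (Fin n)),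
    KTransitive ((n - 2) / 2) Y →
      Y = (alternatingGroup (Fin n) : Set (Perm (Fin n))) ∨ Y = Set.univ := by
  rintro ⟨n₀, hn₀⟩
  set n := max n₀ 4 with hn
  have h4 : 4 ≤ n := le_max_right _ _
  obtain ⟨h1, h2⟩ := result n ((n - 2) / 2) (by omega) (by omega)
  have h3 := lt_of_lt_of_le h1 h2
  obtain ⟨Y, hY⟩ := (Set.ncard_pos (Set.toFinite _)).mp h3
  obtain ⟨-, hY2, hY3, hY4⟩ := hY
  rcases hn₀ n (le_max_left _ _) Y (hY4 _ (by omega) le_rfl) with h | h
  · exact hY2 h
  · exact hY3 h

end Pool.Agent.Results.MP_c60ead_co.HighlyTransitive
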